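import Pool.Agent.Helper28.POSB.Basins

/-!
# Every integer which is not dead has a positive proportion of predecessors

`T n = n / d` if `d ∣ n`, `T n = (m n - r_j) / d` if `n ≡ j (mod d)`, `1 ≤ j ≤ d - 1`, as in the problem file; `Pred a` is the set
of the integers whose `T`-orbit contains `a`. Let `2 ≤ d < m ≤ d ^ (d / (d - 1))` be coprime and `R` admissible. There is
`c > 0` such that for every positive integer `a` one of the following holds: `a` is dead, and then almost no integer belongs
to `Pred a`; or for every `x ≥ a` at least `c x / a` of the positive integers up to `x` belong to `Pred a`. For `3x + 1` the dead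
integers are the multiples of `3`: for every positive integer `a` which is not divisible by `3`, and every `x ≥ a`, at least
`c x / a` of the positive integers up to `x` have `a` on their orbit. In particular a positive proportion of all positive
integers reaches `1`.

Structure of the proof (`Helper8/POS`). Words `w` code the backward orbits `pt w x` of length `|w|` from `x`,
with the weight `m ^ sg w / d ^ |w|`, about `x / pt w x`; `gg j x` is the total weight of the words of length `j` which are valid
at `x`.
* `MixA`-`Mix`: by the fine-scale mixing of the Syracuse random variables (Tao; `Helper52.Tao`, for all Möller maps) the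
  functions `gg j` are near each other in the mean, with an error smaller than every power of `j`.
* `BdA`, `Bd`: for EVERY integer `x` the typical words of length `t` lead to points `pt w x` which are distributed modulo `m ^ i`,
  `i ≤ t / Q`, with a density at most `C t` with respect to the uniform distribution: for a fixed number `s` of non-zero digits
  the offsets of the words are distinct integers of size `O (d ^ t)` in one residue class modulo `m ^ (s + i)`.
* `Dev`, `TypA`-`Typ`, `Step`, `AllT`: so the weight of the typical words which are valid at `x` is almost non-decreasing in the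
  length, at every `x`, with a summable error.
* `Start`: it is at least `δ` at one large level for a residue class in every neighbourhood of every integer which is
  not dead (`Helper91.PL`), hence at least `δ / 2` at all later levels, for all integers `x` of this class.
* `Cross`, `Window`, `EndMass`, `Count`: from the weights to the number of predecessors up to `X`.
* `ReachA`, `Reach`: every `a ≥ 1` which is not dead has a predecessor `x ≤ K a` in such a class.
-/

set_option autoImplicit false

namespace Pool.Agent.Helper68.FIN.PositiveDensity

open Pool.Agent.Helper68.Moeller Pool.Agent.Helper91 Pool.Agent.Helper8 Pool.Agent.Helper28 Filter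
  Topology

/-- The number of the positive elements `≤ x`. -/
noncomputable def count (A : Set ℤ) (x : ℝ) : ℝ := ({n : ℤ | n ∈ A ∧ 0 < n ∧ (n : ℝ) ≤ x}.ncard : ℝ)

/-- The natural density (in the positive integers). -/
def HasDensity (A : Set ℤ) (δ : ℝ) : Prop := Tendsto (fun x : ℝ => count A x / x) atTop (𝓝 δ)

/-- The integers whose orbit under `T` contains `a`. -/
def Pred (d m : ℕ) (r : ℤ → ℤ) (a : ℤ) : Set ℤ := {n | ∃ t : ℕ, (T d m r)^[t] n = a}

/-- `a` is dead: the number of the points not divisible by `d` on the path from `n` to `a` is bounded,
for the integers `n` whose orbit contains `a`. -/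
def Dead (d m : ℕ) (r : ℤ → ℤ) (a : ℤ) : Prop :=
  ∃ k : ℕ, ∀ (n : ℤ) (t : ℕ), (T d m r)^[t] n = a →
    ((Finset.range t).filter (fun i => ¬ (d : ℤ) ∣ (T d m r)^[i] n)).card < k

/-- The map `(3x + 1) / 2`, `x / 2`. -/
def T3 : ℤ → ℤ := T 2 3 (fun _ => -1)

/-- **Every integer which is not dead has a positive proportion of predecessors**; for `3x + 1` these are the integers which
are not divisible by `3`. -/
theorem result :
    (∀ d m : ℕ, 2 ≤ d → d < m → Nat.Coprime m d → (m : ℝ) ≤ (d : ℝ) ^ ((d : ℝ) / ((d : ℝ) - 1)) →
      ∀ r : ℤ → ℤ, Admissible d m r →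
      ∃ c : ℝ, 0 < c ∧ ∀ a : ℤ, 1 ≤ a →
        (Dead d m r a → HasDensity (Pred d m r a) 0) ∧
        (¬ Dead d m r a → ∀ x : ℝ, (a : ℝ) ≤ x → c * x / a ≤ count (Pred d m r a) x)) ∧
    (∃ c : ℝ, 0 < c ∧ ∀ (a : ℤ) (x : ℝ), 1 ≤ a → ¬ (3 : ℤ) ∣ a → (a : ℝ) ≤ x →
      c * x / a ≤ count {n | ∃ t : ℕ, T3^[t] n = a} x) := by
  refine ⟨fun d m hd hdm hco hw r hr => ?_, ?_⟩
  · have h : POSB.Std d m r := ⟨hd, hdm, hco, hw, hr⟩
    obtain ⟨c, hc, h1⟩ := POS.density_one hd hdm hco hw hr
    refine ⟨c, hc, fun a ha => ⟨fun hdead => ?_, fun hdead x hx => h1 a x ha hdead hx⟩⟩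
    have h2 := POSB.tendsto_dens h (PL.tinv_Pr d m r a)
    rw [PL.dead_dens hd hdm hco hr hdead] at h2
    exact h2
  · have h := POSB.std_three
    obtain ⟨c, hc, h1⟩ := POS.density_one h.hd h.hdm h.hco h.hw h.hr
    exact ⟨c, hc, fun a x ha h3 hx => h1 a x ha (fun hdead => h3 ((PL.dead_three a).1 hdead)) hx⟩

end Pool.Agent.Helper68.FIN.PositiveDensity
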